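import Pool.Agent.W872.SV.Stm

set_option autoImplicit false

/-! Project SV (MP_e73337_co), part NUM: the final numerical estimate. -/

namespace Pool.Agent.W109.SV.NUM

theorem div_lem (a K E : ℝ) (h : a * (2 : ℝ) ^ K ≤ (2 : ℝ) ^ E) : a ≤ (2 : ℝ) ^ (E - K) := by
  rw [Real.rpow_sub two_pos, le_div_iff₀ (Real.rpow_pos_of_pos two_pos _)]
  exact h

theorem log_bound (x : ℝ) (hx : 36000000 ≤ x) : Real.logb 2 x ≤ x / 2000 := by
  have hs : 0 < Real.sqrt x := Real.sqrt_pos.2 (by linarith)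
  have hss : Real.sqrt x * Real.sqrt x = x := Real.mul_self_sqrt (by linarith)
  have hs6 : 6000 ≤ Real.sqrt x := by
    apply Real.le_sqrt_of_sq_le
    norm_num
    linarith
  have h1 : Real.log x ≤ 2 * Real.sqrt x := by
    have h2 : Real.log x = Real.log (Real.sqrt x) + Real.log (Real.sqrt x) := by
      rw [← Real.log_mul hs.ne' hs.ne', hss]
    have h3 := Real.log_le_sub_one_of_pos hs
    linarith
  have hl2 : 0.69 < Real.log 2 := by
    have := Real.log_two_gt_d9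
    linarith
  unfold Real.logb
  rw [div_le_iff₀ (by linarith)]
  have h4 : 3 * Real.sqrt x ≤ x / 2000 := by nlinarith
  have h5 : x / 2000 * 0.69 ≤ x / 2000 * Real.log 2 := by
    apply mul_le_mul_of_nonneg_left hl2.le
    linarith
  nlinarith

theorem main : W872.SV.PartNUM := by
  refine ⟨36000000, ?_⟩
  intro n hn a b N ha hb hN
  have hx : (36000000 : ℝ) ≤ (n : ℝ) := by exact_mod_cast hn
  obtain ⟨x, hxn⟩ : ∃ x : ℝ, x = (n : ℝ) := ⟨_, rfl⟩
  rw [← hxn] at hx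
  have hxpos : 0 < x := by linarith
  obtain ⟨l, hl⟩ : ∃ l : ℝ, l = Real.logb 2 x := ⟨_, rfl⟩
  have hlle : l ≤ x / 2000 := hl ▸ log_bound x hx
  have hl0 : 0 ≤ l := by
    rw [hl]
    exact Real.logb_nonneg (by norm_num) (by linarith)
  have h2l : (2 : ℝ) ^ l = x := by
    rw [hl]
    exact Real.rpow_logb two_pos (by norm_num) hxpos
  have hC : ((n.choose 2 : ℕ) : ℝ) = x * (x - 1) / 2 := by
    rw [Nat.cast_choose_two, hxn]
  -- case a
  have hA : (a : ℝ) ≤ (2 : ℝ) ^ ((199 / 200 : ℝ) * (n.choose 2 : ℝ) - 1) := by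
    obtain ⟨m, hm⟩ : ∃ m : ℕ, m = n / 240 := ⟨_, rfl⟩
    rw [← hm] at ha
    have hm1 : 240 * m ≤ n := by omega
    have hm2 : n ≤ 240 * m + 239 := by omega
    have hm1' : 240 * (m : ℝ) ≤ x := by rw [hxn]; exact_mod_cast hm1
    have hm2' : x ≤ 240 * (m : ℝ) + 239 := by rw [hxn]; exact_mod_cast hm2
    have hK : ((m * (n - 2 * m) : ℕ) : ℝ) = (m : ℝ) * (x - 2 * m) := by
      rw [Nat.cast_mul, Nat.cast_sub (by omega), Nat.cast_mul, hxn]
      norm_num
    have h1 : (a : ℝ) * (2 : ℝ) ^ ((m : ℝ) * (x - 2 * m)) ≤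
        (2 : ℝ) ^ ((x + 4) * l + (n.choose 2 : ℝ)) := by
      have h2 : ((a * 2 ^ (m * (n - 2 * m)) : ℕ) : ℝ) ≤
          ((n ^ (n + 4) * 2 ^ (n.choose 2) : ℕ) : ℝ) := by
        have h3 : n ^ 4 * n.factorial * 2 ^ (n.choose 2) ≤ n ^ (n + 4) * 2 ^ (n.choose 2) := by
          apply Nat.mul_le_mul_right
          rw [pow_add, mul_comm (n ^ n)]
          exact Nat.mul_le_mul_left _ (Nat.factorial_le_pow n)
        exact_mod_cast ha.trans h3
      have h4 : ((a * 2 ^ (m * (n - 2 * m)) : ℕ) : ℝ) =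
          (a : ℝ) * (2 : ℝ) ^ ((m : ℝ) * (x - 2 * m)) := by
        rw [← hK, Real.rpow_natCast]
        push_cast
        ring
      have h5 : ((n ^ (n + 4) * 2 ^ (n.choose 2) : ℕ) : ℝ) =
          (2 : ℝ) ^ ((x + 4) * l + (n.choose 2 : ℝ)) := by
        rw [Real.rpow_add two_pos, Real.rpow_natCast, mul_comm (x + 4) l,
          Real.rpow_mul two_pos.le, h2l]
        have h6 : x + 4 = ((n + 4 : ℕ) : ℝ) := by rw [hxn]; push_cast; ring
        rw [h6, Real.rpow_natCast, hxn]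
        push_cast
        ring
      rw [h4, h5] at h2
      exact h2
    refine (div_lem _ _ _ h1).trans ?_
    apply Real.rpow_le_rpow_of_exponent_le (by norm_num)
    rw [hC]
    have h7 : (x + 4) * l ≤ (x + 4) * (x / 2000) :=
      mul_le_mul_of_nonneg_left hlle (by linarith)
    have h8 : (x - 239) / 240 * (119 * x / 120) ≤ (m : ℝ) * (x - 2 * m) := by
      apply mul_le_mul
      · linarith
      · linarith
      · positivity
      · positivity
    nlinarith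
  -- case b
  have hB : (b : ℝ) ≤ (2 : ℝ) ^ ((199 / 200 : ℝ) * (n.choose 2 : ℝ) - 1) := by
    obtain ⟨u, hu⟩ : ∃ u : ℕ, u = (n - 2) / 4 := ⟨_, rfl⟩
    rw [← hu] at hb
    have hu1 : 4 * u + 2 ≤ n := by omega
    have hu2 : n ≤ 4 * u + 5 := by omega
    have hu1' : 4 * (u : ℝ) + 2 ≤ x := by rw [hxn]; exact_mod_cast hu1
    have hu2' : x ≤ 4 * (u : ℝ) + 5 := by rw [hxn]; exact_mod_cast hu2
    have hK : ((u * (n - u) : ℕ) : ℝ) = (u : ℝ) * (x - u) := by
      rw [Nat.cast_mul, Nat.cast_sub (by omega), hxn]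
    have hNr : (N : ℝ) ≤ (2 : ℝ) ^ (x / 4) := by
      have h1 : (N : ℝ) ^ 4 ≤ ((2 : ℝ) ^ (x / 4)) ^ 4 := by
        have h2 : ((2 : ℝ) ^ (x / 4)) ^ 4 = (2 : ℝ) ^ n := by
          rw [← Real.rpow_natCast ((2 : ℝ) ^ (x / 4)) 4, ← Real.rpow_mul two_pos.le,
            ← Real.rpow_natCast 2 n, hxn]
          congr 1
          push_cast
          ring
        rw [h2]
        exact_mod_cast hN
      exact le_of_pow_le_pow_left₀ (by norm_num) (Real.rpow_nonneg two_pos.le _) h1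
    have hbase : 2 * x ^ 2 * (N : ℝ) ≤ (2 : ℝ) ^ (1 + 2 * l + x / 4) := by
      rw [Real.rpow_add two_pos, Real.rpow_add two_pos, Real.rpow_one, mul_comm 2 l,
        Real.rpow_mul two_pos.le, h2l, Real.rpow_two]
      exact mul_le_mul_of_nonneg_left hNr (by positivity)
    have h1 : (b : ℝ) * (2 : ℝ) ^ ((u : ℝ) * (x - u)) ≤
        (2 : ℝ) ^ ((1 + 2 * l + x / 4) * u + (2 * l + (n.choose 2 : ℝ))) := by
      have h2 : ((b * 2 ^ (u * (n - u)) : ℕ) : ℝ) ≤
          (((2 * n ^ 2 * N) ^ u * (n ^ 2 * 2 ^ (n.choose 2)) : ℕ) : ℝ) := by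
        exact_mod_cast hb
      have h4 : ((b * 2 ^ (u * (n - u)) : ℕ) : ℝ) =
          (b : ℝ) * (2 : ℝ) ^ ((u : ℝ) * (x - u)) := by
        rw [← hK, Real.rpow_natCast]
        push_cast
        ring
      have h5 : (((2 * n ^ 2 * N) ^ u * (n ^ 2 * 2 ^ (n.choose 2)) : ℕ) : ℝ) =
          (2 * x ^ 2 * (N : ℝ)) ^ u * (x ^ 2 * (2 : ℝ) ^ (n.choose 2)) := by
        rw [hxn]
        push_cast
        ring
      rw [h4, h5] at h2
      refine h2.trans ?_
      obtain ⟨E, hE⟩ : ∃ E : ℝ, E = 1 + 2 * l + x / 4 := ⟨_, rfl⟩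
      rw [← hE] at hbase ⊢
      have hR1 : (2 : ℝ) ^ (E * (u : ℝ)) = ((2 : ℝ) ^ E) ^ u := by
        rw [Real.rpow_mul two_pos.le, Real.rpow_natCast]
      have hR2 : (2 : ℝ) ^ (2 * l) = x ^ 2 := by
        rw [mul_comm 2 l, Real.rpow_mul two_pos.le, h2l, Real.rpow_two]
      have hR3 : (2 : ℝ) ^ (2 * l + (n.choose 2 : ℝ)) = x ^ 2 * (2 : ℝ) ^ (n.choose 2) := by
        rw [Real.rpow_add two_pos, hR2, Real.rpow_natCast]
      rw [Real.rpow_add two_pos, hR1, hR3]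
      refine mul_le_mul_of_nonneg_right ?_ (by positivity)
      exact pow_le_pow_left₀ (by positivity) hbase u
    refine (div_lem _ _ _ h1).trans ?_
    apply Real.rpow_le_rpow_of_exponent_le (by norm_num)
    rw [hC]
    have hu0 : (0 : ℝ) ≤ u := Nat.cast_nonneg u
    have h7 : (u : ℝ) * (1 + 2 * l + x / 4 - (x - u)) ≤ (u : ℝ) * (1 - 499 / 1000 * x) := by
      apply mul_le_mul_of_nonneg_left _ hu0
      linarith
    have h8 : (u : ℝ) * (1 - 499 / 1000 * x) ≤ (x - 5) / 4 * (1 - 499 / 1000 * x) := by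
      apply mul_le_mul_of_nonpos_right
      · linarith
      · linarith
    have h9 : (x - 5) / 4 * (1 - 499 / 1000 * x) + 2 * l + x * (x - 1) / 400 + 1 ≤ 0 := by
      nlinarith
    linarith
  rw [Nat.cast_add]
  have h10 : (2 : ℝ) ^ ((199 / 200 : ℝ) * (n.choose 2 : ℝ)) =
      (2 : ℝ) ^ ((199 / 200 : ℝ) * (n.choose 2 : ℝ) - 1) +
      (2 : ℝ) ^ ((199 / 200 : ℝ) * (n.choose 2 : ℝ) - 1) := by
    rw [Real.rpow_sub two_pos, Real.rpow_one]
    ring
  rw [h10]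
  exact add_le_add hA hB

end Pool.Agent.W109.SV.NUM
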